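import Pool.Agent.helper12.PFS.Spec

set_option autoImplicit false

/-! Row pfs:RET (helper9): the return map. -/

namespace Pool.Agent.PFS

theorem RET_comm {G : Type} [Group G] (s t : G) (hs : s * s = 1) (h : ℕ) :
    (s * t * s * t⁻¹) ^ (h + 1) = s * ((s * t * s * t⁻¹) ^ h)⁻¹ * (t * s * t⁻¹) := by
  have hs' : s⁻¹ = s := inv_eq_of_mul_eq_one_left hs
  have h1 : s * t * s * t⁻¹ = s * (t * s * t⁻¹) := by group
  have h2 : (t * s * t⁻¹)⁻¹ = t * s * t⁻¹ := by
    rw [mul_inv_rev, mul_inv_rev, inv_inv, hs', mul_assoc]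
  have h3 : (t * s * t⁻¹) * (s * t * s * t⁻¹) * (t * s * t⁻¹)⁻¹ = (s * t * s * t⁻¹)⁻¹ := by
    have h5 : (t * s * t⁻¹) * (t * s * t⁻¹)⁻¹ = 1 := mul_inv_cancel _
    rw [h1, mul_inv_rev s, hs']
    rw [h2] at h5 ⊢
    revert h5
    generalize t * s * t⁻¹ = y
    intro h5
    rw [mul_assoc, mul_assoc, h5, mul_one]
  have h4 : (t * s * t⁻¹) * (s * t * s * t⁻¹) ^ h * (t * s * t⁻¹)⁻¹ =
      ((s * t * s * t⁻¹) ^ h)⁻¹ := by
    rw [← conj_pow, h3, inv_pow]
  rw [← h4, pow_succ']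
  generalize (s * t * s * t⁻¹) ^ h = y
  group

theorem RET : RET_stmt := by
  intro X V _ _ o τ T S T2 sV t2 Φ h hSS hSτ hSo hT hTo hGd hΦ hGV
  -- permutations
  let s : Equiv.Perm (X × V) := ⟨S, S, hSS, hSS⟩
  let t : Equiv.Perm (X × V) := T2
  let r : Equiv.Perm (X × V) := s * t * s * t⁻¹
  have hss : s * s = 1 := Equiv.ext hSS
  have hr : ∀ v, r v = rho S T2 v := fun v => rfl
  have hrn : ∀ (n : ℕ) v, (r ^ n) v = (rho S T2)^[n] v := by
    intro n v
    rw [← Equiv.Perm.iterate_eq_pow]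
    rfl
  have hTs : ∀ v, (T2.symm v).1 = T.symm v.1 := by
    intro v
    rw [Equiv.eq_symm_apply, ← hT, Equiv.apply_symm_apply]
  have hfst : ∀ v, (rho S T2 v).1 = rho τ T v.1 := by
    intro v
    unfold rho
    rw [hSτ, hT, hSτ, hTs]
  have hfstn : ∀ (n : ℕ) v, ((rho S T2)^[n] v).1 = (rho τ T)^[n] v.1 := by
    intro n
    induction n with
    | zero => intro v; rfl
    | succ n ih =>
      intro v
      rw [Function.iterate_succ_apply, Function.iterate_succ_apply, ih, hfst]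
  -- the return map
  have hTos : ∀ w, T2.symm (T o, w) = (o, t2.symm w) := by
    intro w
    rw [Equiv.symm_apply_eq, hTo, Equiv.apply_symm_apply]
  have hret : ∀ u, (rho S T2)^[h + 1 + h] (o, u) = (o, rho sV (t2.trans Φ.symm) u) := by
    intro u
    rw [Function.iterate_add_apply, hΦ, ← hrn, RET_comm s t hss h]
    have e1 : (s * (r ^ h)⁻¹ * (t * s * t⁻¹)) (T o, Φ u) =
        S ((r ^ h)⁻¹ (T2 (S (T2.symm (T o, Φ u))))) := rfl
    have e2 : (r ^ h)⁻¹ (T2 (S (T2.symm (T o, Φ u)))) =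
        (o, Φ.symm (t2 (sV (t2.symm (Φ u))))) := by
      rw [hTos, hSo, hTo, Equiv.Perm.inv_eq_iff_eq, hrn, hΦ, Equiv.apply_symm_apply]
    exact e1.trans (by rw [e2, hSo]; rfl)
  have hretn : ∀ (m : ℕ) u, (rho S T2)^[(h + 1 + h) * m] (o, u) =
      (o, (rho sV (t2.trans Φ.symm))^[m] u) := by
    intro m
    induction m with
    | zero => intro u; rfl
    | succ m ih =>
      intro u
      rw [mul_add, mul_one, Function.iterate_add_apply, hret, ih, Function.iterate_succ_apply]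
  have hinj : ∀ n : ℕ, Function.Injective (rho S T2)^[n] := by
    intro n
    have : (rho S T2)^[n] = ⇑(r ^ n) := by
      funext v
      rw [hrn]
    rw [this]
    exact (r ^ n).injective
  -- transitivity
  rintro ⟨x, u⟩ ⟨y, w⟩
  obtain ⟨n, hn⟩ := hGd x o
  obtain ⟨m, hm⟩ := hGd o y
  have hsurj : Function.Surjective (fun u' : V => ((rho S T2)^[m] (o, u')).2) := by
    apply Finite.injective_iff_surjective.1
    intro u1 u2 h12
    have h3 : (rho S T2)^[m] (o, u1) = (rho S T2)^[m] (o, u2) := by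
      apply Prod.ext
      · rw [hfstn, hfstn]
      · exact h12
    have h4 := hinj m h3
    exact (Prod.ext_iff.1 h4).2
  obtain ⟨u', hu'⟩ := hsurj w
  have h5 : (rho S T2)^[m] (o, u') = (y, w) := by
    apply Prod.ext
    · rw [hfstn, hm]
    · exact hu'
  have h6 : (rho S T2)^[n] (x, u) = (o, ((rho S T2)^[n] (x, u)).2) := by
    apply Prod.ext
    · rw [hfstn, hn]
    · rfl
  obtain ⟨l, hl⟩ := hGV ((rho S T2)^[n] (x, u)).2 u'
  refine ⟨m + ((h + 1 + h) * l + n), ?_⟩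
  rw [Function.iterate_add_apply, Function.iterate_add_apply, h6, hretn, hl, h5]

end Pool.Agent.PFS
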