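import Pool.Agent.helper12.PFS.Spec

set_option autoImplicit false

/-! Row pfs:TRV (helper9): the trivial quotient. -/

namespace Pool.Agent.PFS

theorem TRV_exists {Ω V : Type} [Finite Ω] [Nonempty Ω] [Finite V] (P : Ω → V → Prop) (B : ℕ)
    (h : B * Nat.card Ω ≤ Nat.card {q : Ω × V // P q.1 q.2}) :
    ∃ ω, B ≤ Nat.card {z // P ω z} := by
  classical
  have := Fintype.ofFinite Ω
  let e : {q : Ω × V // P q.1 q.2} ≃ Σ ω, {z // P ω z} :=
    { toFun := fun q => ⟨q.1.1, ⟨q.1.2, q.2⟩⟩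
      invFun := fun s => ⟨(s.1, s.2.1), s.2.2⟩
      left_inv := fun q => rfl
      right_inv := fun s => rfl }
  rw [Nat.card_congr e, Nat.card_sigma] at h
  by_contra hcon
  push Not at hcon
  have h2 : ∑ ω : Ω, Nat.card {z // P ω z} < ∑ _ω : Ω, B :=
    Finset.sum_lt_sum_of_nonempty Finset.univ_nonempty fun ω _ => hcon ω
  rw [Finset.sum_const, Finset.card_univ, smul_eq_mul, ← Nat.card_eq_fintype_card, mul_comm] at h2
  omega

theorem TRV (h1 : FA3_stmt) (h2 : CJ_stmt) : TRV_stmt := by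
  intro p hpf G Q V _ _ _ _ _ _ D k hp hV hQ
  have hbij : Function.Bijective D.em := by
    refine ⟨D.em_inj, fun g => ?_⟩
    have hsub : Subsingleton Q := (Nat.card_eq_one_iff_unique.1 hQ).1
    exact D.ker g (Subsingleton.elim _ _)
  have em0 : D.em 0 = 1 := by
    have := D.em_add 0 0
    rw [add_zero] at this
    exact mul_eq_left.1 this.symm
  let E : V ≃ G := Equiv.ofBijective D.em hbij
  have hE : ∀ v, E v = D.em v := fun v => rfl
  have hE0 : E 0 = 1 := em0
  obtain ⟨Ω, hΩ, hΩn, σ, hσ, hc⟩ := h1 p V k hp hV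
  obtain ⟨ω, hω⟩ := TRV_exists (fun ω z => Gd (σ ω) (af (1 : (ZMod p)ˣ) z)) ((p - 1) * (p - 3) ^ k)
    (hc 1)
  refine ⟨fun g => E (σ ω (E.symm g)), ⟨⟨?_, ?_⟩, ?_⟩, ?_⟩
  · intro g
    simp only [Equiv.symm_apply_apply]
    rw [(hσ ω).inv.inv, Equiv.apply_symm_apply]
  · intro g
    rw [← Equiv.eq_symm_apply, (hσ ω).inv.fix, Equiv.symm_apply_eq, hE0]
  · intro g hg
    have hv : E.symm g ≠ 0 := by
      intro h
      rw [Equiv.symm_apply_eq, hE0] at h
      exact hg h
    obtain ⟨y, hy0, hy⟩ := (hσ ω).qt _ hv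
    refine ⟨E y, ?_, ?_⟩
    · intro h
      rw [← hE0] at h
      exact hy0 (E.injective h)
    · simp only [Equiv.symm_apply_apply]
      rw [mul_inv_eq_iff_eq_mul]
      have h3 : g = E (y - σ ω y) := by
        rw [hy, Equiv.apply_symm_apply]
      rw [h3, hE, hE, hE, ← D.em_add, sub_add_cancel]
  · have h4 : Nat.card {z // Gd (σ ω) (af (1 : (ZMod p)ˣ) z)} ≤
        ng (fun g => E (σ ω (E.symm g))) := by
      unfold ng
      refine Nat.card_le_card_of_injective
        (fun z : {z // Gd (σ ω) (af (1 : (ZMod p)ˣ) z)} =>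
          (⟨E z.1, ?_⟩ : {h : G // Gd (fun g => E (σ ω (E.symm g))) (Equiv.mulRight h)})) ?_
      · apply h2 V G E (σ ω) (af (1 : (ZMod p)ˣ) z.1) (Equiv.mulRight (E z.1)) _ z.2
        intro x
        change D.em x * D.em z.1 = E ((af (1 : (ZMod p)ˣ) z.1) x)
        rw [← D.em_add]
        have h5 : (af (1 : (ZMod p)ˣ) z.1) x = x + z.1 := by
          change (1 : (ZMod p)ˣ) • x + z.1 = x + z.1
          rw [one_smul]
        rw [h5, hE]
      · intro z z' h
        have h6 := congrArg Subtype.val h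
        exact Subtype.ext (E.injective h6)
    refine le_trans ?_ (hω.trans h4)
    rw [pow_succ, mul_comm]
    exact Nat.mul_le_mul_right _ (by omega)

end Pool.Agent.PFS
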